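import Pool.Agent.H23.BG.TargetsP

/-!
# The bound of Burgess: separation of the variables at all places (row P_SG)
-/

set_option autoImplicit false

open NumberField NumberField.InfinitePlace MeasureTheory Set Filter Complex

namespace Pool.Agent.H83.BG.SG

open Pool.Agent.H23.BG Pool.Agent.H29.DW

theorem card_le (K : Type) [Field K] [NumberField K] :
    Fintype.card (InfinitePlace K) ≤ Module.finrank ℚ K := by
  have h := NumberField.InfinitePlace.card_add_two_mul_card_eq_rank K
  have h2 := NumberField.InfinitePlace.card_eq_nrRealPlaces_add_nrComplexPlaces (K := K)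
  omega

/-- **P_SG** -/
theorem pf_P_SG (hSP : P_SP) : P_SG := by
  classical
  obtain ⟨C, hC, h⟩ := hSP
  intro n
  refine ⟨C ^ n, one_le_pow₀ hC, ?_⟩
  intro K _ _ hn cp H p B hPw hB hp
  have hcard : Fintype.card (InfinitePlace K) ≤ n := hn ▸ card_le K
  choose α β ha hb ha1 ha0 hb1 hi using fun v =>
    h (rv v) (cp v) (H v) B (p v) (hPw.one v) (hPw.le v) (hPw.real v) (by linarith) (hp v)
  have hCB : 1 ≤ C * B := by
    calc (1 : ℝ) = 1 * 1 := by norm_num
      _ ≤ C * B := mul_le_mul hC hB zero_le_one (by linarith)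
  refine ⟨fun s w => ∏ v, α v (s v) (w v), fun s b => ∏ v, β v (s v) (b v), ?_, ?_, ?_, ?_, ?_, ?_⟩
  · intro w
    exact Finset.measurable_fun_prod _ fun v _ => (ha v (w v)).comp (measurable_pi_apply v)
  · intro b
    exact Finset.measurable_fun_prod _ fun v _ => (hb v (b v)).comp (measurable_pi_apply v)
  · intro s w
    rw [norm_prod]
    exact Finset.prod_le_one (fun v _ => norm_nonneg _) fun v _ => ha1 v _ _
  · intro s w v hv
    exact Finset.prod_eq_zero (Finset.mem_univ v) (ha0 v _ _ hv)
  · intro s b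
    rw [norm_prod]
    calc ∏ v, ‖β v (s v) (b v)‖ ≤ ∏ _v : InfinitePlace K, (C * B) :=
          Finset.prod_le_prod (fun v _ => norm_nonneg _) fun v _ => hb1 v _ _
      _ = (C * B) ^ Fintype.card (InfinitePlace K) := by
          rw [Finset.prod_const, Finset.card_univ]
      _ ≤ (C * B) ^ n := pow_le_pow_right₀ hCB hcard
      _ = C ^ n * B ^ n := mul_pow _ _ _
  · intro w b hw hb' hHb
    have e1 : ∀ v, tw1 (cp v) (H v) (p v) (w v + b v) =
        ∫ s in Sq1, α v s (w v) * β v s (b v) := fun v => hi v (w v) (b v) (hw v) (hb' v) (hHb v)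
    simp only [e1]
    have e2 : (volume : Measure (InfinitePlace K → ℂ)).restrict (SqK K) =
        Measure.pi fun _ => (volume : Measure ℂ).restrict Sq1 := by
      rw [SqK, volume_pi, Measure.restrict_pi_pi]
    rw [e2]
    rw [← integral_fintype_prod_eq_prod (𝕜 := ℂ) (fun v s => α v s (w v) * β v s (b v))]
    congr 1
    funext s
    rw [Finset.prod_mul_distrib]

end Pool.Agent.H83.BG.SG
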