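import Pool.Agent.H23.BG.TargetsP

/-!
# The bound of Burgess: separation of the variables (rows P_SP, P_SG)
-/

set_option autoImplicit false

open MeasureTheory Set Filter Complex

namespace Pool.Agent.H83.BG.SP

open Pool.Agent.H23.BG Pool.Agent.H29.DW

theorem cd_aux {F : ℂ → ℂ} (hF : ContDiff ℝ 2 F) (v : ℂ) :
    ContDiff ℝ 1 (fun z => fderiv ℝ F z v) :=
  (hF.fderiv_right (m := 1) (by norm_num)).clm_apply contDiff_const

theorem cont_G {F : ℂ → ℂ} (hF : ContDiff ℝ 2 F) (v w : ℂ) :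
    Continuous (fun s => fderiv ℝ (fun z => fderiv ℝ F z v) s w) :=
  ((cd_aux hF v).continuous_fderiv one_ne_zero).clm_apply continuous_const

/-- fundamental theorem of calculus in the two variables -/
theorem ftc2 (F : ℂ → ℂ) (hF : ContDiff ℝ 2 F) (h1 : ∀ x : ℂ, x.re = -(1 / 8) → F x = 0)
    (h2 : ∀ x : ℂ, x.im = -(1 / 8) → F x = 0) (u : ℂ) (hu1 : -(1 / 8) ≤ u.re)
    (hu2 : -(1 / 8) ≤ u.im) :
    ∫ s in {s : ℂ | (-(1 / 8) ≤ s.re ∧ s.re ≤ u.re) ∧ (-(1 / 8) ≤ s.im ∧ s.im ≤ u.im)},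
      fderiv ℝ (fun z => fderiv ℝ F z 1) s I = F u := by
  set G : ℂ → ℂ := fun s => fderiv ℝ (fun z => fderiv ℝ F z 1) s I with hG
  have hGc : Continuous G := cont_G hF 1 I
  have hset : {s : ℂ | (-(1 / 8) ≤ s.re ∧ s.re ≤ u.re) ∧ (-(1 / 8) ≤ s.im ∧ s.im ≤ u.im)} =
      Complex.measurableEquivRealProd ⁻¹' (Icc (-(1 / 8)) u.re ×ˢ Icc (-(1 / 8)) u.im) := by
    ext s
    simp only [mem_ofPred_eq, mem_preimage, Complex.measurableEquivRealProd_apply, mem_prod, mem_Icc]
  have e0 : ∀ s : ℂ, G s = (fun q : ℝ × ℝ => G ((q.1 : ℂ) + (q.2 : ℂ) * I))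
      (Complex.measurableEquivRealProd s) := by
    intro s
    simp only [Complex.measurableEquivRealProd_apply]
    congr 1
    apply Complex.ext <;> simp
  have hGp : Continuous (fun q : ℝ × ℝ => G ((q.1 : ℂ) + (q.2 : ℂ) * I)) :=
    hGc.comp (by fun_prop)
  rw [hset]
  have e1 : ∫ s in Complex.measurableEquivRealProd ⁻¹' (Icc (-(1 / 8)) u.re ×ˢ
      Icc (-(1 / 8)) u.im), G s = ∫ q in (Icc (-(1 / 8)) u.re ×ˢ Icc (-(1 / 8)) u.im),
        (fun q : ℝ × ℝ => G ((q.1 : ℂ) + (q.2 : ℂ) * I)) q := by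
    rw [← Complex.volume_preserving_equiv_real_prod.setIntegral_preimage_emb
      Complex.measurableEquivRealProd.measurableEmbedding]
    refine setIntegral_congr_fun (Complex.measurableEquivRealProd.measurable
      (measurableSet_Icc.prod measurableSet_Icc)) ?_
    intro s _
    exact e0 s
  rw [e1, Measure.volume_eq_prod, setIntegral_prod _ (by
    rw [← Measure.volume_eq_prod]
    exact hGp.continuousOn.integrableOn_compact (isCompact_Icc.prod isCompact_Icc))]
  -- the inner integral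
  have hl : ∀ x y : ℝ, HasDerivAt (fun y : ℝ => (x : ℂ) + (y : ℂ) * I) I y := by
    intro x y
    have := ((Complex.ofRealCLM.hasDerivAt (x := y)).mul_const I).const_add (x : ℂ)
    simpa using this
  have hl' : ∀ y x : ℝ, HasDerivAt (fun x : ℝ => (x : ℂ) + (y : ℂ) * I) 1 x := by
    intro y x
    have := (Complex.ofRealCLM.hasDerivAt (x := x)).add_const ((y : ℂ) * I)
    simpa using this
  have hg1 := cd_aux hF 1
  have hF1 : Differentiable ℝ F := hF.differentiable (by norm_num)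
  have e2 : ∀ x : ℝ, ∫ y in Icc (-(1 / 8)) u.im,
      (fun q : ℝ × ℝ => G ((q.1 : ℂ) + (q.2 : ℂ) * I)) (x, y) =
        fderiv ℝ F ((x : ℂ) + (u.im : ℂ) * I) 1 := by
    intro x
    rw [integral_Icc_eq_integral_Ioc, ← intervalIntegral.integral_of_le hu2]
    rw [intervalIntegral.integral_eq_sub_of_hasDerivAt
      (f := fun y : ℝ => fderiv ℝ F ((x : ℂ) + (y : ℂ) * I) 1)]
    · have hz : HasDerivAt (fun t : ℝ => F ((t : ℂ) + ((-(1 / 8) : ℝ) : ℂ) * I))
          (fderiv ℝ F ((x : ℂ) + ((-(1 / 8) : ℝ) : ℂ) * I) 1) x :=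
        (hF1 _).hasFDerivAt.comp_hasDerivAt x (hl' _ x)
      have hz' : HasDerivAt (fun t : ℝ => F ((t : ℂ) + ((-(1 / 8) : ℝ) : ℂ) * I)) 0 x := by
        have : (fun t : ℝ => F ((t : ℂ) + ((-(1 / 8) : ℝ) : ℂ) * I)) = fun _ => 0 := by
          funext t
          apply h2
          simp
        rw [this]
        exact hasDerivAt_const _ _
      rw [hz.unique hz', sub_zero]
    · intro y _
      have hd : Differentiable ℝ (fun z => fderiv ℝ F z 1) := hg1.differentiable (by norm_num)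
      exact (hd _).hasFDerivAt.comp_hasDerivAt y (hl x y)
    · exact (hGc.comp (by fun_prop : Continuous fun y : ℝ => (x : ℂ) + (y : ℂ) * I)).intervalIntegrable _ _
  rw [setIntegral_congr_fun measurableSet_Icc (fun x _ => e2 x), integral_Icc_eq_integral_Ioc,
    ← intervalIntegral.integral_of_le hu1]
  rw [intervalIntegral.integral_eq_sub_of_hasDerivAt
      (f := fun x : ℝ => F ((x : ℂ) + (u.im : ℂ) * I))]
  · have a1 : F (((-(1 / 8) : ℝ) : ℂ) + (u.im : ℂ) * I) = 0 := by
      apply h1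
      simp
    rw [a1, sub_zero, Complex.re_add_im]
  · intro x _
    exact (hF1 _).hasFDerivAt.comp_hasDerivAt x (hl' _ x)
  · exact ((hg1.continuous).comp (by fun_prop : Continuous fun x : ℝ =>
      (x : ℂ) + (u.im : ℂ) * I)).intervalIntegrable _ _

/-- the function of the separation of variables -/
noncomputable def Fb (a b : ℂ) (p : ℂ → ℂ) (u : ℂ) : ℂ :=
  cexp (((a * u).re : ℝ) * I) * p (u + b)

theorem Fb_contDiff (a b : ℂ) {p : ℂ → ℂ} (hp : ContDiff ℝ 2 p) : ContDiff ℝ 2 (Fb a b p) := by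
  unfold Fb
  refine ContDiff.mul ?_ (hp.comp (contDiff_id.add contDiff_const))
  refine ContDiff.cexp ?_
  refine ContDiff.mul ?_ contDiff_const
  have h0 : ContDiff ℝ 2 (fun u : ℂ => a * u) := contDiff_const.mul contDiff_id
  have h1 : ContDiff ℝ 2 (fun u : ℂ => Complex.ofRealCLM (Complex.reCLM (a * u))) :=
    Complex.ofRealCLM.contDiff.comp (Complex.reCLM.contDiff.comp h0)
  exact h1

theorem hasFDerivAt_line {F : ℂ → ℂ} (hF : Differentiable ℝ F) (z v : ℂ) :
    HasDerivAt (fun t : ℝ => F (z + (t : ℂ) * v)) (fderiv ℝ F z v) 0 := by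
  have h1 : HasDerivAt (fun t : ℝ => z + (t : ℂ) * v) v 0 := by
    have := ((Complex.ofRealCLM.hasDerivAt (x := 0)).mul_const v).const_add z
    simpa using this
  have h2 : HasFDerivAt F (fderiv ℝ F z) (z + ((0 : ℝ) : ℂ) * v) := by
    simpa using (hF z).hasFDerivAt
  exact h2.comp_hasDerivAt 0 h1

theorem hasDerivAt_exp (a z v : ℂ) :
    HasDerivAt (fun t : ℝ => cexp (((a * (z + (t : ℂ) * v)).re : ℝ) * I))
      (cexp (((a * z).re : ℝ) * I) * (((a * v).re : ℝ) * I)) 0 := by
  have h1 : HasDerivAt (fun t : ℝ => (((a * (z + (t : ℂ) * v)).re : ℝ) : ℂ) * I)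
      ((((a * v).re : ℝ) : ℂ) * I) 0 := by
    have e : (fun t : ℝ => (((a * (z + (t : ℂ) * v)).re : ℝ) : ℂ) * I) =
        fun t : ℝ => (((a * z).re : ℝ) : ℂ) * I + (t : ℂ) * ((((a * v).re : ℝ) : ℂ) * I) := by
      funext t
      have : (a * (z + (t : ℂ) * v)).re = (a * z).re + t * (a * v).re := by
        rw [show a * (z + (t : ℂ) * v) = a * z + (t : ℂ) * (a * v) by ring, Complex.add_re,
          Complex.re_ofReal_mul]
      rw [this]
      push_cast
      ring
    rw [e]
    have := ((Complex.ofRealCLM.hasDerivAt (x := 0)).mul_const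
      ((((a * v).re : ℝ) : ℂ) * I)).const_add ((((a * z).re : ℝ) : ℂ) * I)
    simpa using this
  have h2 := h1.cexp
  simpa using h2

theorem fderiv_Fb (a b : ℂ) {p : ℂ → ℂ} (hp : ContDiff ℝ 2 p) (z v : ℂ) :
    fderiv ℝ (Fb a b p) z v = cexp (((a * z).re : ℝ) * I) *
      ((((a * v).re : ℝ) * I) * p (z + b) + fderiv ℝ p (z + b) v) := by
  have hd : Differentiable ℝ (Fb a b p) := (Fb_contDiff a b hp).differentiable (by norm_num)
  have hpd : Differentiable ℝ p := hp.differentiable (by norm_num)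
  have h1 := hasFDerivAt_line hd z v
  have h2 : HasDerivAt (fun t : ℝ => p ((z + b) + (t : ℂ) * v)) (fderiv ℝ p (z + b) v) 0 :=
    hasFDerivAt_line hpd (z + b) v
  have h3 := (hasDerivAt_exp a z v).mul h2
  have e : (fun t : ℝ => Fb a b p (z + (t : ℂ) * v)) = fun t : ℝ =>
      cexp (((a * (z + (t : ℂ) * v)).re : ℝ) * I) * p ((z + b) + (t : ℂ) * v) := by
    funext t
    unfold Fb
    congr 2
    ring
  rw [e] at h1
  have h4 := h1.unique h3
  rw [h4]
  simp only [Complex.ofReal_zero, zero_mul, add_zero]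
  ring

theorem fderiv2_Fb (a b : ℂ) {p : ℂ → ℂ} (hp : ContDiff ℝ 2 p) (z v w : ℂ) :
    fderiv ℝ (fun x => fderiv ℝ (Fb a b p) x v) z w = cexp (((a * z).re : ℝ) * I) *
      ((((a * w).re : ℝ) * I) * ((((a * v).re : ℝ) * I) * p (z + b) + fderiv ℝ p (z + b) v) +
        ((((a * v).re : ℝ) * I) * fderiv ℝ p (z + b) w +
          fderiv ℝ (fun x => fderiv ℝ p x v) (z + b) w)) := by
  have hd : Differentiable ℝ (fun x => fderiv ℝ (Fb a b p) x v) :=
    (cd_aux (Fb_contDiff a b hp) v).differentiable (by norm_num)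
  have hpd : Differentiable ℝ p := hp.differentiable (by norm_num)
  have hpd2 : Differentiable ℝ (fun x => fderiv ℝ p x v) :=
    (cd_aux hp v).differentiable (by norm_num)
  have h1 := hasFDerivAt_line hd z w
  have h2 : HasDerivAt (fun t : ℝ => p ((z + b) + (t : ℂ) * w)) (fderiv ℝ p (z + b) w) 0 :=
    hasFDerivAt_line hpd (z + b) w
  have h3 : HasDerivAt (fun t : ℝ => fderiv ℝ p ((z + b) + (t : ℂ) * w) v)
      (fderiv ℝ (fun x => fderiv ℝ p x v) (z + b) w) 0 := hasFDerivAt_line hpd2 (z + b) w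
  have h4 := (hasDerivAt_exp a z w).mul ((h2.const_mul (((a * v).re : ℝ) * I : ℂ)).add h3)
  have e : (fun t : ℝ => fderiv ℝ (Fb a b p) (z + (t : ℂ) * w) v) = fun t : ℝ =>
      cexp (((a * (z + (t : ℂ) * w)).re : ℝ) * I) *
        (((a * v).re : ℝ) * I * p ((z + b) + (t : ℂ) * w) +
          fderiv ℝ p ((z + b) + (t : ℂ) * w) v) := by
    funext t
    rw [fderiv_Fb a b hp, show z + (t : ℂ) * w + b = z + b + (t : ℂ) * w by ring]
  rw [e] at h1
  have h5 := h1.unique h4
  rw [h5]
  simp only [Complex.ofReal_zero, zero_mul, add_zero, Pi.add_apply]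
  ring

theorem bound_Fb (a b : ℂ) {p : ℂ → ℂ} {B : ℝ} (hp : Bmp 2 B p) (ha : ‖a‖ ≤ 1) (z : ℂ) :
    ‖fderiv ℝ (fun x => fderiv ℝ (Fb a b p) x 1) z I‖ ≤ 4 * B := by
  have hps : ContDiff ℝ 2 p := hp.smooth 2
  rw [fderiv2_Fb a b hps z 1 I, norm_mul]
  have h0 : ‖cexp (((a * z).re : ℝ) * I)‖ = 1 := Complex.norm_exp_ofReal_mul_I _
  rw [h0, one_mul]
  have b0 : ‖p (z + b)‖ ≤ B := by
    have := hp.bound 0 (by norm_num) (z + b)
    rwa [norm_iteratedFDeriv_zero] at this
  have b1 : ∀ v : ℂ, ‖v‖ = 1 → ‖fderiv ℝ p (z + b) v‖ ≤ B := by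
    intro v hv
    have := hp.bound 1 (by norm_num) (z + b)
    rw [norm_iteratedFDeriv_one] at this
    refine ((fderiv ℝ p (z + b)).le_opNorm v).trans ?_
    rw [hv, mul_one]
    exact this
  have b2 : ‖fderiv ℝ (fun x => fderiv ℝ p x 1) (z + b) I‖ ≤ B := by
    have h := hp.bound 2 le_rfl (z + b)
    have hd : DifferentiableAt ℝ (fderiv ℝ p) (z + b) :=
      ((hps.fderiv_right (m := 1) (by norm_num)).differentiable (by norm_num)) _
    have e : fderiv ℝ (fun x => fderiv ℝ p x 1) (z + b) I =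
        iteratedFDeriv ℝ 2 p (z + b) ![I, 1] := by
      rw [iteratedFDeriv_two_apply]
      have := (hd.hasFDerivAt.clm_apply (hasFDerivAt_const (1 : ℂ) (z + b))).fderiv
      rw [this]
      simp
    rw [e]
    refine ((iteratedFDeriv ℝ 2 p (z + b)).le_opNorm _).trans ?_
    rw [Fin.prod_univ_two]
    simpa using h
  have c0 : ∀ v : ℂ, ‖v‖ = 1 → ‖((((a * v).re : ℝ) : ℂ) * I)‖ ≤ 1 := by
    intro v hv
    rw [norm_mul, Complex.norm_I, mul_one, Complex.norm_real, Real.norm_eq_abs]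
    refine (Complex.abs_re_le_norm _).trans ?_
    rw [norm_mul, hv, mul_one]
    exact ha
  have hB : 0 ≤ B := (norm_nonneg _).trans b0
  have n1 : ‖(1 : ℂ)‖ = 1 := norm_one
  have nI : ‖I‖ = 1 := Complex.norm_I
  have d1 : ‖((((a * 1).re : ℝ) : ℂ) * I) * p (z + b)‖ ≤ B := by
    rw [norm_mul]
    calc _ ≤ 1 * B := mul_le_mul (c0 1 n1) b0 (norm_nonneg _) zero_le_one
      _ = B := one_mul B
  have d2 : ‖((((a * I).re : ℝ) : ℂ) * I) * (((((a * 1).re : ℝ) : ℂ) * I) * p (z + b) +
      fderiv ℝ p (z + b) 1)‖ ≤ 2 * B := by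
    rw [norm_mul]
    calc _ ≤ 1 * (B + B) := mul_le_mul (c0 I nI) ((norm_add_le _ _).trans (add_le_add d1 (b1 1 n1)))
          (norm_nonneg _) zero_le_one
      _ = 2 * B := by ring
  have d3 : ‖((((a * 1).re : ℝ) : ℂ) * I) * fderiv ℝ p (z + b) I‖ ≤ B := by
    rw [norm_mul]
    calc _ ≤ 1 * B := mul_le_mul (c0 1 n1) (b1 I nI) (norm_nonneg _) zero_le_one
      _ = B := one_mul B
  refine (norm_add_le _ _).trans ?_
  have := (norm_add_le (((((a * 1).re : ℝ) : ℂ) * I) * fderiv ℝ p (z + b) I)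
    (fderiv ℝ (fun x => fderiv ℝ p x 1) (z + b) I))
  linarith

theorem supp' {p : ℂ → ℂ} {B : ℝ} (hp : Bmp 2 B p) (x : ℂ) (hx : 1 / 16 ≤ ‖x‖) : p x = 0 := by
  rcases hx.eq_or_lt with h | h
  · have hc : Continuous p := (hp.smooth 0).continuous
    have hx0 : x ≠ 0 := by
      intro h0
      rw [h0, norm_zero] at h
      norm_num at h
    have ht : Tendsto (fun t : ℝ => p ((t : ℂ) * x)) (nhdsWithin 1 (Ioi 1)) (nhds (p x)) := by
      have : Continuous (fun t : ℝ => p ((t : ℂ) * x)) := hc.comp (by fun_prop)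
      have h1 := (this.tendsto 1).mono_left (nhdsWithin_le_nhds (s := Ioi 1))
      simpa using h1
    have ht0 : Tendsto (fun t : ℝ => p ((t : ℂ) * x)) (nhdsWithin 1 (Ioi 1)) (nhds 0) := by
      refine Tendsto.congr' (f₁ := fun _ => 0) ?_ tendsto_const_nhds
      filter_upwards [self_mem_nhdsWithin] with t ht
      symm
      apply hp.supp
      rw [norm_mul, Complex.norm_real, Real.norm_eq_abs, ← h]
      have : 1 < |t| := lt_of_lt_of_le ht (le_abs_self t)
      linarith
    exact tendsto_nhds_unique ht ht0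
  · exact hp.supp x h

/-- **P_SP** -/
theorem pf_P_SP : P_SP := by
  classical
  refine ⟨4, by norm_num, ?_⟩
  intro r c H B p hH hc _ hB hp
  have hH0 : (0 : ℝ) < H := by linarith
  have hHc : (H : ℂ) ≠ 0 := by exact_mod_cast hH0.ne'
  have hps : ContDiff ℝ 2 p := hp.smooth 2
  -- the frequency
  set a : ℂ → ℂ := fun b => c / H ^ 2 * (H * b) with ha
  have ha1 : ∀ b : ℂ, H * ‖b‖ ≤ 1 / 16 → ‖a b‖ ≤ 1 := by
    intro b hb
    have e1 : ‖c / (H : ℂ) ^ 2‖ ≤ 1 := by
      rw [norm_div, norm_pow, Complex.norm_real, Real.norm_eq_abs, abs_of_pos hH0]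
      rw [div_le_one (by positivity)]
      exact hc
    have e2 : ‖(H : ℂ) * b‖ ≤ 1 := by
      rw [norm_mul, Complex.norm_real, Real.norm_eq_abs, abs_of_pos hH0]
      linarith
    rw [ha]
    simp only
    rw [norm_mul]
    calc _ ≤ (1 : ℝ) * 1 := mul_le_mul e1 e2 (norm_nonneg _) zero_le_one
      _ = 1 := by norm_num
  refine ⟨fun s w => if H * ‖w - 1‖ ≤ 1 / 8 ∧ s.re ≤ ((H : ℂ) * (w - 1)).re ∧
      s.im ≤ ((H : ℂ) * (w - 1)).im then chp c w else 0,
    fun s b => if H * ‖b‖ ≤ 1 / 16 then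
      cexp (((-(c * b).re + (c * b ^ 2).re / 2 : ℝ) : ℂ) * I) *
        fderiv ℝ (fun x => fderiv ℝ (Fb (a b) (H * b) p) x 1) s I else 0, ?_, ?_, ?_, ?_, ?_, ?_⟩
  · intro w
    by_cases hw : H * ‖w - 1‖ ≤ 1 / 8
    · simp only [hw, true_and]
      refine Measurable.ite ?_ measurable_const measurable_const
      exact (measurableSet_le Complex.measurable_re measurable_const).inter
        (measurableSet_le Complex.measurable_im measurable_const)
    · simp only [hw, false_and, if_false]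
      exact measurable_const
  · intro b
    by_cases hb : H * ‖b‖ ≤ 1 / 16
    · simp only [hb, if_true]
      exact (continuous_const.mul (cont_G (Fb_contDiff _ _ hps) 1 I)).measurable
    · simp only [hb, if_false]
      exact measurable_const
  · intro s w
    dsimp only
    split_ifs
    · unfold chp
      rw [← Complex.ofReal_neg]
      exact (Complex.norm_exp_ofReal_mul_I _).le
    · simp
  · intro s w hw
    dsimp only
    rw [if_neg]
    rintro ⟨h, -⟩
    linarith
  · intro s b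
    dsimp only
    split_ifs with hb
    · rw [norm_mul, Complex.norm_exp_ofReal_mul_I, one_mul]
      exact bound_Fb (a b) (H * b) hp (ha1 b hb) s
    · rw [norm_zero]
      positivity
  · intro w b _ _ hb
    dsimp only
    simp only [if_pos hb]
    have hHb : ‖(H : ℂ) * b‖ ≤ 1 / 16 := by
      rw [norm_mul, Complex.norm_real, Real.norm_eq_abs, abs_of_pos hH0]
      exact hb
    by_cases hw : H * ‖w - 1‖ ≤ 1 / 8
    · simp only [hw, true_and]
      set u : ℂ := (H : ℂ) * (w - 1) with hu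
      have hun : ‖u‖ ≤ 1 / 8 := by
        rw [hu, norm_mul, Complex.norm_real, Real.norm_eq_abs, abs_of_pos hH0]
        exact hw
      have hur := abs_le.1 ((Complex.abs_re_le_norm u).trans hun)
      have hui := abs_le.1 ((Complex.abs_im_le_norm u).trans hun)
      have hFT := ftc2 (Fb (a b) (H * b) p) (Fb_contDiff _ _ hps) (by
          intro x hx
          unfold Fb
          rw [supp' hp, mul_zero]
          have e1 := Complex.abs_re_le_norm (x + H * b)
          have e2 := Complex.abs_re_le_norm ((H : ℂ) * b)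
          rw [Complex.add_re, hx] at e1
          have e3 := abs_le.1 (e2.trans hHb)
          have e4 := abs_le.1 e1
          linarith [e3.1, e3.2, e4.1, e4.2]) (by
          intro x hx
          unfold Fb
          rw [supp' hp, mul_zero]
          have e1 := Complex.abs_im_le_norm (x + H * b)
          have e2 := Complex.abs_im_le_norm ((H : ℂ) * b)
          rw [Complex.add_im, hx] at e1
          have e3 := abs_le.1 (e2.trans hHb)
          have e4 := abs_le.1 e1
          linarith [e3.1, e3.2, e4.1, e4.2]) u hur.1 hui.1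
      have hS : MeasurableSet {s : ℂ | s.re ≤ u.re ∧ s.im ≤ u.im} :=
        (measurableSet_le Complex.measurable_re measurable_const).inter
          (measurableSet_le Complex.measurable_im measurable_const)
      have hEq : {s : ℂ | (-(1 / 8) ≤ s.re ∧ s.re ≤ u.re) ∧ (-(1 / 8) ≤ s.im ∧ s.im ≤ u.im)} =
          {s : ℂ | s.re ≤ u.re ∧ s.im ≤ u.im} ∩ Sq1 := by
        ext s
        simp only [mem_ofPred_eq, mem_inter_iff, Sq1, abs_le]
        constructor
        · rintro ⟨⟨h1, h2⟩, h3, h4⟩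
          exact ⟨⟨h2, h4⟩, ⟨h1, by linarith [hur.2]⟩, h3, by linarith [hui.2]⟩
        · rintro ⟨⟨h1, h2⟩, ⟨h3, h4⟩, h5, h6⟩
          exact ⟨⟨h3, h1⟩, h5, h2⟩
      have e1 : ∫ s in Sq1, (if s.re ≤ u.re ∧ s.im ≤ u.im then chp c w else 0) *
          (cexp (((-(c * b).re + (c * b ^ 2).re / 2 : ℝ) : ℂ) * I) *
            fderiv ℝ (fun x => fderiv ℝ (Fb (a b) (H * b) p) x 1) s I) =
          ∫ s in Sq1, ({s : ℂ | s.re ≤ u.re ∧ s.im ≤ u.im}.indicator (fun s =>
            chp c w * cexp (((-(c * b).re + (c * b ^ 2).re / 2 : ℝ) : ℂ) * I) *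
              fderiv ℝ (fun x => fderiv ℝ (Fb (a b) (H * b) p) x 1) s I)) s := by
        congr 1
        funext s
        by_cases hs : s.re ≤ u.re ∧ s.im ≤ u.im
        · rw [if_pos hs, indicator_of_mem (by exact hs)]
          ring
        · rw [if_neg hs, indicator_of_notMem (by exact hs), zero_mul]
      rw [e1, integral_indicator hS, Measure.restrict_restrict hS, ← hEq, integral_const_mul,
        hFT]
      -- the value of the test function
      unfold tw1 Fb chp
      have f1 : (H : ℂ) * (w + b - 1) = u + H * b := by rw [hu]; ring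
      rw [f1, ← mul_assoc, ← Complex.exp_add, ← Complex.exp_add]
      congr 2
      have f2 : a b * u = c * (w - 1) * b := by
        rw [ha, hu]
        simp only
        field_simp
      rw [f2]
      have f3 : (c * (w + b - 1 - (w + b - 1) ^ 2 / 2)).re =
          (c * (w - 1 - (w - 1) ^ 2 / 2)).re + (c * b).re - (c * (w - 1) * b).re -
            (c * b ^ 2).re / 2 := by
        have g1 : c * (w + b - 1 - (w + b - 1) ^ 2 / 2) =
            c * (w - 1 - (w - 1) ^ 2 / 2) + c * b - c * (w - 1) * b - c * b ^ 2 / 2 := by ring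
        rw [g1, Complex.sub_re, Complex.sub_re, Complex.add_re]
        congr 1
        rw [show c * b ^ 2 / 2 = (((1 / 2 : ℝ) : ℂ)) * (c * b ^ 2) by push_cast; ring,
          Complex.re_ofReal_mul]
        ring
      rw [f3]
      push_cast
      ring
    · simp only [hw, false_and, if_false, zero_mul, integral_zero]
      unfold tw1
      rw [hp.supp, mul_zero]
      push Not at hw
      have f1 : (H : ℂ) * (w - 1) = H * (w + b - 1) - H * b := by ring
      have f2 : ‖(H : ℂ) * (w - 1)‖ = H * ‖w - 1‖ := by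
        rw [norm_mul, Complex.norm_real, Real.norm_eq_abs, abs_of_pos hH0]
      have f3 := norm_sub_le ((H : ℂ) * (w + b - 1)) (H * b)
      rw [← f1, f2] at f3
      linarith

end Pool.Agent.H83.BG.SP
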